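/-
helper59: module AMEN of ps_modules (Folner data for F/N, N containing [R,R]).
-/
import Pool.Agent.H10.PS.Targets

set_option autoImplicit false

namespace Pool.Agent.H59.PS

open Pool.Agent.H10.PS
open scoped commutatorElement

/-- The functions with a prescribed value at one place. -/
theorem card_slice {ι α : Type} [Fintype ι] [DecidableEq ι] [Fintype α] (i : ι) (c : α) :
    Nat.card {v : ι → α // v i = c} * Nat.card α = Nat.card (ι → α) := by
  have e : {v : ι → α // v i = c} ≃ ({j : ι // j ≠ i} → α) :=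
    { toFun := fun v j => v.1 j
      invFun := fun u => ⟨fun j => if h : j = i then c else u ⟨j, h⟩, by simp⟩
      left_inv := by
        intro v
        apply Subtype.ext
        funext j
        by_cases h : j = i
        · subst h
          simp [v.2]
        · simp [h]
      right_inv := by
        intro u
        funext j
        simp [j.2] }
  rw [Nat.card_congr e, Nat.card_congr (Equiv.funSplitAt i α), Nat.card_prod, mul_comm]

/-- a commutative quotient -/
@[reducible] def quotComm {G : Type} [Group G] (R N : Subgroup G) [N.Normal]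
    (h : ⁅R, R⁆ ≤ N) : CommGroup (R ⧸ N.subgroupOf R) :=
  { (inferInstance : Group (R ⧸ N.subgroupOf R)) with
    mul_comm := by
      intro a b
      induction a using QuotientGroup.induction_on with
      | H a =>
      induction b using QuotientGroup.induction_on with
      | H b =>
      rw [← QuotientGroup.mk_mul, ← QuotientGroup.mk_mul, QuotientGroup.eq]
      rw [Subgroup.mem_subgroupOf]
      apply h
      have : (((a * b)⁻¹ * (b * a) : R) : G) = ⁅(b : G)⁻¹, (a : G)⁻¹⁆ := by
        rw [commutatorElement_def]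
        push_cast
        group
      rw [this]
      exact Subgroup.commutator_mem_commutator (R.inv_mem b.2) (R.inv_mem a.2) }

theorem prod_step {E C : Type} [Fintype E] [DecidableEq E] [CommGroup C] (K : ℕ) [NeZero K]
    [Fact (1 < K)] (c : E → C) (t : E → ZMod K) (e : E) (hlt : (t e).val + 1 < K) :
    c e * ∏ j, c j ^ (t j).val = ∏ j, c j ^ ((t + Pi.single e 1 : E → ZMod K) j).val := by
  rw [← Finset.mul_prod_erase Finset.univ (fun j => c j ^ (t j).val) (Finset.mem_univ e)]
  refine Eq.trans ?_ (Finset.mul_prod_erase Finset.univ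
    (fun j => c j ^ ((t + Pi.single e 1 : E → ZMod K) j).val) (Finset.mem_univ e))
  rw [← mul_assoc]
  congr 1
  · have : ((t + Pi.single e 1 : E → ZMod K) e).val = (t e).val + 1 := by
      rw [Pi.add_apply, Pi.single_eq_same, ZMod.val_add_of_lt, ZMod.val_one]
      rw [ZMod.val_one]
      exact hlt
    rw [this, pow_succ']
  · apply Finset.prod_congr rfl
    intro j hj
    have hji : j ≠ e := Finset.ne_of_mem_erase hj
    simp [hji]

theorem amen_aux (r : ℕ) (R N : Subgroup (FG r)) (hN : N.Normal) (hc : commutator (FG r) ≤ R)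
    (hRR : ⁅R, R⁆ ≤ N) (K : ℕ) (hK : 2 ≤ K) :
    ∃ (J : Type) (_ : Fintype J) (_ : Nonempty J) (γ : J → FG r)
      (θ : Fin r → Equiv.Perm J), ∀ i,
      (Nat.card {j : J // (FreeGroup.of i * γ j)⁻¹ * γ (θ i j) ∉ N} : ℝ) ≤
        (2 / K : ℝ) * Nat.card J := by
  classical
  have : NeZero K := ⟨by omega⟩
  have : Fact (1 < K) := ⟨by omega⟩
  have hg : ∀ v : Fin r → ZMod K, ∃ w : FG r, Abelianization.of w =
      ∏ i, (Abelianization.of (FreeGroup.of i : FG r)) ^ (v i).val := by
    intro v
    exact QuotientGroup.mk'_surjective (commutator (FG r)) _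
  choose g hg using hg
  -- the edge elements
  have ha : ∀ e : (Fin r → ZMod K) × Fin r, ∃ a : R, (e.1 e.2).val + 1 < K →
      FreeGroup.of e.2 * g e.1 = g (e.1 + Pi.single e.2 1) * (a : FG r) := by
    rintro ⟨v, i⟩
    by_cases hlt : (v i).val + 1 < K
    · have hmem : (g (v + Pi.single i 1))⁻¹ * (FreeGroup.of i * g v) ∈ R := by
        apply hc
        rw [← Abelianization.ker_of, MonoidHom.mem_ker, map_mul, map_mul, map_inv, hg, hg,
          inv_mul_eq_one]
        exact (prod_step K (fun j => Abelianization.of (FreeGroup.of j : FG r)) v i hlt).symm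
      refine ⟨⟨_, hmem⟩, fun _ => ?_⟩
      simp
    · exact ⟨1, fun h => absurd h hlt⟩
  choose a ha using ha
  -- products of the edge elements
  let _ := quotComm R N hRR
  have hp : ∀ t : (Fin r → ZMod K) × Fin r → ZMod K, ∃ p : R,
      (QuotientGroup.mk p : R ⧸ N.subgroupOf R) =
        ∏ e, (QuotientGroup.mk (a e) : R ⧸ N.subgroupOf R) ^ (t e).val := by
    intro t
    exact QuotientGroup.mk_surjective _
  choose p hp using hp
  have hstep : ∀ (t : (Fin r → ZMod K) × Fin r → ZMod K) (e : (Fin r → ZMod K) × Fin r),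
      (t e).val + 1 < K →
      ((a e : FG r) * (p t : FG r))⁻¹ * (p (t + Pi.single e 1) : FG r) ∈ N := by
    intro t e hlt
    have h1 : (QuotientGroup.mk (a e * p t) : R ⧸ N.subgroupOf R) =
        QuotientGroup.mk (p (t + Pi.single e 1)) := by
      rw [QuotientGroup.mk_mul, hp, hp]
      exact prod_step K (fun j => (QuotientGroup.mk (a j) : R ⧸ N.subgroupOf R)) t e hlt
    rw [QuotientGroup.eq, Subgroup.mem_subgroupOf] at h1
    simpa using h1
  let V := Fin r → ZMod K
  let T := V × Fin r → ZMod K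
  let θ : Fin r → Equiv.Perm (V × T) := fun i =>
    { toFun := fun j => (j.1 + Pi.single i 1, j.2 + Pi.single (j.1, i) 1)
      invFun := fun j => (j.1 - Pi.single i 1, j.2 - Pi.single (j.1 - Pi.single i 1, i) 1)
      left_inv := by
        intro j
        simp
      right_inv := by
        intro j
        simp }
  refine ⟨V × T, inferInstance, ⟨(0, 0)⟩, fun j => g j.1 * (p j.2 : FG r), θ, fun i => ?_⟩
  have hc1 : (((K - 1 : ℕ) : ZMod K)).val = K - 1 := ZMod.val_cast_of_lt (by omega)
  have hbad : ∀ j : V × T, (FreeGroup.of i * (g j.1 * (p j.2 : FG r)))⁻¹ *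
      (g (θ i j).1 * (p (θ i j).2 : FG r)) ∉ N →
      j.1 i = ((K - 1 : ℕ) : ZMod K) ∨ j.2 (j.1, i) = ((K - 1 : ℕ) : ZMod K) := by
    intro j hj
    by_contra hcon
    push Not at hcon
    obtain ⟨h1, h2⟩ := hcon
    apply hj
    have hlt1 : (j.1 i).val + 1 < K := by
      have h3 := ZMod.val_lt (j.1 i)
      rcases Nat.lt_or_ge ((j.1 i).val + 1) K with h | h
      · exact h
      · exfalso
        apply h1
        apply ZMod.val_injective K
        rw [hc1]
        omega
    have hlt2 : (j.2 (j.1, i)).val + 1 < K := by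
      have h3 := ZMod.val_lt (j.2 (j.1, i))
      rcases Nat.lt_or_ge ((j.2 (j.1, i)).val + 1) K with h | h
      · exact h
      · exfalso
        apply h2
        apply ZMod.val_injective K
        rw [hc1]
        omega
    have e1 := ha (j.1, i) hlt1
    have e2 := hstep j.2 (j.1, i) hlt2
    simp only at e1
    have e3 : (FreeGroup.of i * (g j.1 * (p j.2 : FG r)))⁻¹ *
        (g (θ i j).1 * (p (θ i j).2 : FG r)) =
        ((a (j.1, i) : FG r) * (p j.2 : FG r))⁻¹ * (p (j.2 + Pi.single (j.1, i) 1) : FG r) := by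
      change (FreeGroup.of i * (g j.1 * (p j.2 : FG r)))⁻¹ *
        (g (j.1 + Pi.single i 1) * (p (j.2 + Pi.single (j.1, i) 1) : FG r)) = _
      rw [← mul_assoc (FreeGroup.of i), e1]
      group
    rw [e3]
    exact e2
  -- counting
  have hS1 : Nat.card {v : V // v i = ((K - 1 : ℕ) : ZMod K)} * K = Nat.card V := by
    have := card_slice (α := ZMod K) i ((K - 1 : ℕ) : ZMod K)
    rwa [Nat.card_eq_fintype_card (α := ZMod K), ZMod.card] at this
  have hS2 : ∀ v : V, Nat.card {t : T // t (v, i) = ((K - 1 : ℕ) : ZMod K)} * K = Nat.card T := by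
    intro v
    have := card_slice (α := ZMod K) (v, i) ((K - 1 : ℕ) : ZMod K)
    rwa [Nat.card_eq_fintype_card (α := ZMod K), ZMod.card] at this
  have hle : Nat.card {j : V × T // (FreeGroup.of i * (g j.1 * (p j.2 : FG r)))⁻¹ *
      (g (θ i j).1 * (p (θ i j).2 : FG r)) ∉ N} ≤
      Nat.card ({v : V // v i = ((K - 1 : ℕ) : ZMod K)} × T) +
        Nat.card (Σ v : V, {t : T // t (v, i) = ((K - 1 : ℕ) : ZMod K)}) := by
    rw [← Nat.card_sum]
    let f : {j : V × T // (FreeGroup.of i * (g j.1 * (p j.2 : FG r)))⁻¹ *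
        (g (θ i j).1 * (p (θ i j).2 : FG r)) ∉ N} →
        ({v : V // v i = ((K - 1 : ℕ) : ZMod K)} × T) ⊕
          (Σ v : V, {t : T // t (v, i) = ((K - 1 : ℕ) : ZMod K)}) := fun j =>
      if h : j.1.1 i = ((K - 1 : ℕ) : ZMod K) then Sum.inl (⟨j.1.1, h⟩, j.1.2)
      else Sum.inr ⟨j.1.1, ⟨j.1.2, (hbad j.1 j.2).resolve_left h⟩⟩
    apply Nat.card_le_card_of_injective f
    intro j j' hjj
    simp only [f] at hjj
    apply Subtype.ext
    split_ifs at hjj with h h' h'
    · have := Sum.inl.inj hjj
      simp only [Prod.mk.injEq, Subtype.mk.injEq] at this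
      exact Prod.ext this.1 this.2
    · have := Sum.inr.inj hjj
      have h1 := congrArg Sigma.fst this
      simp only at h1
      have h2 := congrArg (fun z : (Σ v : V, {t : T // t (v, i) = ((K - 1 : ℕ) : ZMod K)}) =>
        z.2.1) this
      simp only at h2
      exact Prod.ext h1 h2
  have hsig : Nat.card (Σ v : V, {t : T // t (v, i) = ((K - 1 : ℕ) : ZMod K)}) * K =
      Nat.card V * Nat.card T := by
    rw [Nat.card_sigma, Finset.sum_mul, Finset.sum_congr rfl (fun v _ => hS2 v)]
    simp [Nat.card_eq_fintype_card]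
  have hKpos : (0 : ℝ) < K := by positivity
  have hle' : (Nat.card {j : V × T // (FreeGroup.of i * (g j.1 * (p j.2 : FG r)))⁻¹ *
      (g (θ i j).1 * (p (θ i j).2 : FG r)) ∉ N} : ℝ) * K ≤ 2 * Nat.card (V × T) := by
    have h1 : Nat.card {j : V × T // (FreeGroup.of i * (g j.1 * (p j.2 : FG r)))⁻¹ *
      (g (θ i j).1 * (p (θ i j).2 : FG r)) ∉ N} * K ≤ 2 * Nat.card (V × T) := by
      calc _ ≤ (Nat.card ({v : V // v i = ((K - 1 : ℕ) : ZMod K)} × T) +
          Nat.card (Σ v : V, {t : T // t (v, i) = ((K - 1 : ℕ) : ZMod K)})) * K :=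
            Nat.mul_le_mul_right _ hle
        _ = 2 * Nat.card (V × T) := by
            rw [add_mul, hsig, Nat.card_prod, Nat.card_prod]
            have : Nat.card {v : V // v i = ((K - 1 : ℕ) : ZMod K)} * Nat.card T * K =
              Nat.card V * Nat.card T := by
              rw [← hS1]; ring
            rw [this]; ring
    exact_mod_cast h1
  rw [div_mul_eq_mul_div, le_div_iff₀ hKpos]
  exact hle'

theorem AMEN : T_AMEN := by
  intro r R N _ hN hc _ hRR η hη
  obtain ⟨K, hK⟩ := exists_nat_gt (2 / η)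
  obtain ⟨J, i1, i2, γ, θ, h⟩ := amen_aux r R N hN hc hRR (max K 2) (le_max_right _ _)
  refine ⟨J, i1, i2, γ, θ, fun i => (h i).trans ?_⟩
  apply mul_le_mul_of_nonneg_right _ (Nat.cast_nonneg _)
  have h1 : (2 / η : ℝ) ≤ ((max K 2 : ℕ) : ℝ) := hK.le.trans (by exact_mod_cast le_max_left _ _)
  have h2 : (0 : ℝ) < ((max K 2 : ℕ) : ℝ) := by
    have : 0 < max K 2 := by omega
    exact_mod_cast this
  rw [div_le_iff₀ h2]
  rw [div_le_iff₀ hη] at h1
  linarith

end Pool.Agent.H59.PS
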