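/-
helper59: module LIM of ps_modules (the limit random subgroup of a sequence of finite F-sets).
-/
import Pool.Agent.H10.PS.Targets

set_option autoImplicit false

open MeasureTheory Filter Topology

namespace Pool.Agent.H59.PS

open Pool.Agent.H10.PS

instance instCountableFG (r : ℕ) : Countable (FG r) := by
  unfold FG FreeGroup
  infer_instance

/-- The indicator of the stabiliser of a point. -/
def stabI {r n : ℕ} (σ : FG r →* Equiv.Perm (Fin n)) (ω : Fin n) : XX r :=
  fun w => decide (σ w ω = ω)

theorem stabI_true {r n : ℕ} (σ : FG r →* Equiv.Perm (Fin n)) (ω : Fin n) (w : FG r) :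
    stabI σ ω w = true ↔ σ w ω = ω := by
  simp [stabI]

theorem stabI_conj {r n : ℕ} (σ : FG r →* Equiv.Perm (Fin n)) (g : FG r) (ω : Fin n) :
    conjX g (stabI σ ω) = stabI σ (σ g ω) := by
  funext w
  simp only [conjX, stabI]
  congr 1
  rw [map_mul, map_mul, map_inv, Equiv.Perm.mul_apply, Equiv.Perm.mul_apply,
    Equiv.Perm.inv_eq_iff_eq]

theorem continuous_conjX {r : ℕ} (g : FG r) : Continuous (conjX g) := by
  apply continuous_pi
  intro w
  exact continuous_apply _

/-- The uniform law of the stabilisers. -/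
noncomputable def lawS {r n : ℕ} (hn : 0 < n) (σ : FG r →* Equiv.Perm (Fin n)) :
    ProbabilityMeasure (XX r) :=
  haveI : Nonempty (Fin n) := ⟨⟨0, hn⟩⟩
  ⟨(ProbabilityTheory.uniformOn (Set.univ : Set (Fin n))).map (stabI σ),
    Measure.isProbabilityMeasure_map (Measurable.of_discrete).aemeasurable⟩

theorem lawS_apply {r n : ℕ} (hn : 0 < n) (σ : FG r →* Equiv.Perm (Fin n)) (A : Set (XX r))
    (hA : MeasurableSet A) :
    ((lawS hn σ : ProbabilityMeasure (XX r)) : Measure (XX r)).real A =
      (Nat.card {ω : Fin n // stabI σ ω ∈ A} : ℝ) / n := by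
  classical
  have h1 : ((lawS hn σ : ProbabilityMeasure (XX r)) : Measure (XX r)) A =
      (ProbabilityTheory.uniformOn (Set.univ : Set (Fin n))) (stabI σ ⁻¹' A) := by
    change (Measure.map (stabI σ) _) A = _
    rw [Measure.map_apply Measurable.of_discrete hA]
  rw [Measure.real, h1, ProbabilityTheory.uniformOn_univ, Measure.count_apply (MeasurableSet.of_discrete)]
  rw [ENNReal.toReal_div]
  have h2 : (stabI σ ⁻¹' A).encard = (Nat.card {ω : Fin n // stabI σ ω ∈ A} : ℕ∞) := by
    rw [← (Set.toFinite (stabI σ ⁻¹' A)).cast_ncard_eq, ← Nat.card_coe_set_eq]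
    rfl
  rw [h2]
  simp

theorem lawS_conj {r n : ℕ} (hn : 0 < n) (σ : FG r →* Equiv.Perm (Fin n)) (g : FG r) :
    (lawS hn σ : Measure (XX r)).map (conjX g) = (lawS hn σ : Measure (XX r)) := by
  have hm : Measurable (conjX g) := (continuous_conjX g).measurable
  ext A hA
  rw [Measure.map_apply hm hA]
  have e1 := lawS_apply hn σ A hA
  have e2 := lawS_apply hn σ (conjX g ⁻¹' A) (hm hA)
  have e3 : Nat.card {ω : Fin n // stabI σ ω ∈ conjX g ⁻¹' A} =
      Nat.card {ω : Fin n // stabI σ ω ∈ A} := by
    apply Nat.card_congr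
    refine (σ g).subtypeEquiv ?_
    intro ω
    rw [Set.mem_preimage, stabI_conj]
  rw [e3, ← e1] at e2
  exact (ENNReal.toReal_eq_toReal_iff' (measure_ne_top _ _) (measure_ne_top _ _)).1 e2

theorem lim_clopen {r : ℕ} (U : Ultrafilter ℕ) (n : ℕ → ℕ)
    (σ : ∀ k, FG r →* Equiv.Perm (Fin (n k))) (hn : ∀ k, 0 < n k) (μ : ProbabilityMeasure (XX r))
    (h : Tendsto (fun k => lawS (hn k) (σ k)) U (𝓝 μ)) (A : Set (XX r)) (hA : IsClopen A) :
    Tendsto (fun k => (Nat.card {ω : Fin (n k) // stabI (σ k) ω ∈ A} : ℝ) / n k) U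
      (𝓝 ((μ : Measure (XX r)).real A)) := by
  have h1 : Tendsto (fun k => ((lawS (hn k) (σ k) : ProbabilityMeasure (XX r)) :
      Measure (XX r)) A) U (𝓝 ((μ : Measure (XX r)) A)) := by
    apply ProbabilityMeasure.tendsto_measure_of_null_frontier_of_tendsto' h
    rw [hA.frontier_eq]
    simp
  have h2 := (ENNReal.tendsto_toReal (measure_ne_top (μ : Measure (XX r)) A)).comp h1
  refine h2.congr ?_
  intro k
  rw [← lawS_apply (hn k) (σ k) A hA.isClosed.measurableSet]
  rfl

theorem clopen_coord {r : ℕ} (w : FG r) (b : Bool) : IsClopen {x : XX r | x w = b} := by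
  have : {x : XX r | x w = b} = (fun x : XX r => x w) ⁻¹' {b} := rfl
  rw [this]
  exact (isClopen_discrete {b}).preimage (continuous_apply w)

theorem clopen_cyl {r : ℕ} (D P : Finset (FG r)) : IsClopen (cyl D P) := by
  classical
  have : cyl D P = ⋂ w ∈ D, {x : XX r | x w = decide (w ∈ P)} := by
    ext x
    simp only [cyl, Set.mem_ofPred_eq, Set.mem_iInter]
    refine forall₂_congr fun w _ => ?_
    by_cases hw : w ∈ P
    · simp [hw]
    · simp [hw]
  rw [this]
  exact isClopen_biInter_finset fun w _ => clopen_coord w _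

theorem LIM : T_LIM := by
  intro r N U n σ hn hN
  obtain ⟨μ, hμ⟩ : ∃ μ : ProbabilityMeasure (XX r),
      Tendsto (fun k => lawS (hn k) (σ k)) U (𝓝 μ) :=
    ⟨_, (U.map (fun k => lawS (hn k) (σ k))).le_nhds_lim⟩
  have hnull : ∀ A : Set (XX r), IsClopen A →
      Tendsto (fun k => (Nat.card {ω : Fin (n k) // stabI (σ k) ω ∈ A} : ℝ) / n k) U (𝓝 0) →
      ∀ᵐ x ∂(μ : Measure (XX r)), x ∉ A := by
    intro A hA h0
    have h1 := lim_clopen U n σ hn μ hμ A hA
    have h2 := tendsto_nhds_unique h1 h0
    rw [ae_iff]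
    have h3 : {x : XX r | ¬ x ∉ A} = A := by
      ext x
      simp
    rw [h3]
    exact (measureReal_eq_zero_iff).1 h2
  have hzero : ∀ A : Set (XX r), IsClopen A → (∀ k (ω : Fin (n k)), stabI (σ k) ω ∉ A) →
      ∀ᵐ x ∂(μ : Measure (XX r)), x ∉ A := by
    intro A hA h0
    apply hnull A hA
    have h1 : (fun k => (Nat.card {ω : Fin (n k) // stabI (σ k) ω ∈ A} : ℝ) / n k) =
        fun _ => (0 : ℝ) := by
      funext k
      have : IsEmpty {ω : Fin (n k) // stabI (σ k) ω ∈ A} := ⟨fun ω => h0 k ω.1 ω.2⟩
      simp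
    rw [h1]
    exact tendsto_const_nhds
  refine ⟨μ, ⟨inferInstance, ?_, ?_⟩, ?_⟩
  · have h1 : ∀ᵐ x ∂(μ : Measure (XX r)), x 1 = true := by
      have := hzero {x | x 1 = false} (clopen_coord 1 false) (by
        intro k ω
        simp [stabI])
      filter_upwards [this] with x hx
      simpa using hx
    have h2 : ∀ᵐ x ∂(μ : Measure (XX r)), ∀ a b : FG r, x a = true → x b = true →
        x (a * b) = true := by
      rw [ae_all_iff]
      intro a
      rw [ae_all_iff]
      intro b
      have := hzero ({x | x a = true} ∩ ({x | x b = true} ∩ {x | x (a * b) = false}))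
        ((clopen_coord a true).inter ((clopen_coord b true).inter (clopen_coord (a * b) false)))
        (by
          intro k ω
          simp only [Set.mem_inter_iff, Set.mem_ofPred_eq, stabI_true, not_and]
          intro ha hb
          rw [Bool.not_eq_false, stabI_true, map_mul, Equiv.Perm.mul_apply, hb, ha])
      filter_upwards [this] with x hx ha hb
      simp only [Set.mem_inter_iff, Set.mem_ofPred_eq, not_and] at hx
      simpa using hx ha hb
    have h3 : ∀ᵐ x ∂(μ : Measure (XX r)), ∀ a : FG r, x a = true → x a⁻¹ = true := by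
      rw [ae_all_iff]
      intro a
      have := hzero ({x | x a = true} ∩ {x | x a⁻¹ = false})
        ((clopen_coord a true).inter (clopen_coord a⁻¹ false))
        (by
          intro k ω
          simp only [Set.mem_inter_iff, Set.mem_ofPred_eq, stabI_true, not_and]
          intro ha
          rw [Bool.not_eq_false, stabI_true, map_inv, Equiv.Perm.inv_eq_iff_eq, ha])
      filter_upwards [this] with x hx ha
      simp only [Set.mem_inter_iff, Set.mem_ofPred_eq, not_and] at hx
      simpa using hx ha
    have h4 : ∀ᵐ x ∂(μ : Measure (XX r)), ∀ w : FG r, w ∈ N → x w = true := by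
      rw [ae_all_iff]
      intro w
      by_cases hw : w ∈ N
      · have := hnull {x | x w = false} (clopen_coord w false) (by
          refine (hN w hw).congr ?_
          intro k
          congr 2
          apply Nat.card_congr
          refine (Equiv.refl _).subtypeEquiv ?_
          intro ω
          simp [stabI])
        filter_upwards [this] with x hx _
        simpa using hx
      · exact Filter.Eventually.of_forall fun x h => absurd h hw
    filter_upwards [h1, h2, h3, h4] with x h1 h2 h3 h4
    exact ⟨{ carrier := {w | x w = true}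
             one_mem' := h1
             mul_mem' := fun {a b} ha hb => h2 a b ha hb
             inv_mem' := fun {a} ha => h3 a ha }, fun w hw => h4 w hw, fun w => Iff.rfl⟩
  · intro g
    have h1 := ProbabilityMeasure.tendsto_map_of_tendsto_of_continuous _ _ hμ (continuous_conjX g)
    have h2 : (fun k => (lawS (hn k) (σ k)).map
        (continuous_conjX g).measurable.aemeasurable) = fun k => lawS (hn k) (σ k) := by
      funext k
      apply Subtype.ext
      exact lawS_conj (hn k) (σ k) g
    rw [h2] at h1
    have h3 := tendsto_nhds_unique h1 hμ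
    exact congrArg (fun ν : ProbabilityMeasure (XX r) => (ν : Measure (XX r))) h3
  · intro D P _
    have h1 := lim_clopen U n σ hn μ hμ (cyl D P) (clopen_cyl D P)
    refine h1.congr ?_
    intro k
    simp only [freq, Nat.card_eq_fintype_card, Fintype.card_fin, cyl, Set.mem_ofPred_eq, stabI_true]

end Pool.Agent.H59.PS
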