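/-
helper59: module TILE of ps_modules (finite tiles for a finitely generated abelian quotient).
-/
import Pool.Agent.H59.PS.AMEN

set_option autoImplicit false

namespace Pool.Agent.H59.PS

open Pool.Agent.H10.PS
open scoped commutatorElement

/-- Cocycles on a free group with prescribed values on the generators. -/
theorem cocycle_exists {r : ℕ} {V G : Type} [Group G] (p : FG r →* Equiv.Perm V)
    (ρ : Fin r → V → G) : ∃ h : FG r → V → G,
      (∀ w w' v, h (w * w') v = h w (p w' v) * h w' v) ∧ ∀ i v, h (FreeGroup.of i) v = ρ i v := by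
  let Ψ : FG r →* Equiv.Perm (V × G) := FreeGroup.lift (fun i =>
    { toFun := fun x => (p (FreeGroup.of i) x.1, ρ i x.1 * x.2)
      invFun := fun x => ((p (FreeGroup.of i))⁻¹ x.1, (ρ i ((p (FreeGroup.of i))⁻¹ x.1))⁻¹ * x.2)
      left_inv := by
        intro x
        simp
      right_inv := by
        intro x
        simp })
  have hof : ∀ i v u, Ψ (FreeGroup.of i) (v, u) = (p (FreeGroup.of i) v, ρ i v * u) := by
    intro i v u
    simp [Ψ]
  have hinv : ∀ i v u, (Ψ (FreeGroup.of i))⁻¹ (v, u) =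
      ((p (FreeGroup.of i))⁻¹ v, (ρ i ((p (FreeGroup.of i))⁻¹ v))⁻¹ * u) := by
    intro i v u
    rw [Equiv.Perm.inv_eq_iff_eq, hof]
    simp
  have key : ∀ w v u, Ψ w (v, u) = (p w v, (Ψ w (v, 1)).2 * u) := by
    intro w
    induction w using FreeGroup.induction_on with
    | C1 => intro v u; simp
    | of i =>
      intro v u
      rw [hof, hof]
      simp
    | inv_of i _ =>
      intro v u
      change Ψ (FreeGroup.of i)⁻¹ (v, u) = (p (FreeGroup.of i)⁻¹ v,
        (Ψ (FreeGroup.of i)⁻¹ (v, 1)).2 * u)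
      rw [map_inv, map_inv, hinv, hinv]
      simp
    | mul x y hx hy =>
      intro v u
      have e1 := hx (p y v) ((Ψ y (v, 1)).2 * u)
      have e2 := hx (p y v) ((Ψ y (v, 1)).2 * 1)
      have e3 : Ψ x (Ψ y (v, 1)) = (p x (p y v), (Ψ x (p y v, 1)).2 * ((Ψ y (v, 1)).2 * 1)) := by
        rw [← e2]
        exact congrArg _ (hy v 1)
      rw [map_mul, map_mul, Equiv.Perm.mul_apply, Equiv.Perm.mul_apply, Equiv.Perm.mul_apply,
        hy v u, e1, e3]
      simp [mul_assoc]
  refine ⟨fun w v => (Ψ w (v, 1)).2, ?_, ?_⟩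
  · intro w w' v
    simp only
    rw [map_mul, Equiv.Perm.mul_apply, key w' v 1, key w]
  · intro i v
    simp only
    rw [hof]
    simp

theorem cocycle_one {r : ℕ} {V G : Type} [Group G] (p : FG r →* Equiv.Perm V)
    (h : FG r → V → G) (hm : ∀ w w' v, h (w * w') v = h w (p w' v) * h w' v) (v : V) :
    h 1 v = 1 := by
  have := hm 1 1 v
  simp at this
  exact this

theorem cocycle_inv {r : ℕ} {V G : Type} [Group G] (p : FG r →* Equiv.Perm V)
    (h : FG r → V → G) (hm : ∀ w w' v, h (w * w') v = h w (p w' v) * h w' v) (w : FG r) (v : V) :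
    h w⁻¹ v = (h w (p w⁻¹ v))⁻¹ := by
  have := hm w w⁻¹ v
  rw [mul_inv_cancel, cocycle_one p h hm] at this
  exact (inv_eq_of_mul_eq_one_right this.symm).symm

/-- Cocycles on a free group are determined by their values on the generators. -/
theorem cocycle_unique {r : ℕ} {V G : Type} [Group G] (p : FG r →* Equiv.Perm V)
    (h h' : FG r → V → G) (hm : ∀ w w' v, h (w * w') v = h w (p w' v) * h w' v)
    (hm' : ∀ w w' v, h' (w * w') v = h' w (p w' v) * h' w' v)
    (he : ∀ i v, h (FreeGroup.of i) v = h' (FreeGroup.of i) v) : ∀ w v, h w v = h' w v := by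
  intro w
  induction w using FreeGroup.induction_on with
  | C1 => intro v; rw [cocycle_one p h hm, cocycle_one p h' hm']
  | of i => intro v; exact he i v
  | inv_of i hi =>
    intro v
    rw [cocycle_inv p h hm, cocycle_inv p h' hm', hi]
  | mul x y hx hy =>
    intro v
    rw [hm, hm', hx, hy]

/-- The number of places at which two cocycles differ. -/
theorem cocycle_count {r : ℕ} (w : FG r) : ∃ m : ℕ, ∀ (V G : Type) [Fintype V] [Group G]
    (p : FG r →* Equiv.Perm V) (h h' : FG r → V → G)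
    (_ : ∀ w w' v, h (w * w') v = h w (p w' v) * h w' v)
    (_ : ∀ w w' v, h' (w * w') v = h' w (p w' v) * h' w' v) (β : ℝ),
    (∀ i, (Nat.card {v : V // h (FreeGroup.of i) v ≠ h' (FreeGroup.of i) v} : ℝ) ≤ β) →
    (Nat.card {v : V // h w v ≠ h' w v} : ℝ) ≤ m * β := by
  induction w using FreeGroup.induction_on with
  | C1 =>
    refine ⟨0, ?_⟩
    intro V G _ _ p h h' hm hm' β hβ
    have : IsEmpty {v : V // h 1 v ≠ h' 1 v} := ⟨fun v => v.2 (by
      rw [cocycle_one p h hm, cocycle_one p h' hm'])⟩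
    simp
  | of i =>
    refine ⟨1, ?_⟩
    intro V G _ _ p h h' hm hm' β hβ
    rw [Nat.cast_one, one_mul]
    exact hβ i
  | inv_of i hi =>
    refine ⟨1, ?_⟩
    intro V G _ _ p h h' hm hm' β hβ
    rw [Nat.cast_one, one_mul]
    refine le_trans (le_of_eq ?_) (hβ i)
    congr 1
    apply Nat.card_congr
    refine (p (FreeGroup.of i)⁻¹).subtypeEquiv ?_
    intro v
    change h (FreeGroup.of i)⁻¹ v ≠ h' (FreeGroup.of i)⁻¹ v ↔ _
    rw [cocycle_inv p h hm, cocycle_inv p h' hm', ne_eq, inv_inj]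
  | mul x y hx hy =>
    obtain ⟨m1, hm1⟩ := hx
    obtain ⟨m2, hm2⟩ := hy
    refine ⟨m1 + m2, ?_⟩
    intro V G _ _ p h h' hm hm' β hβ
    have h1 := hm1 V G p h h' hm hm' β hβ
    have h2 := hm2 V G p h h' hm hm' β hβ
    have h3 : Nat.card {v : V // h (x * y) v ≠ h' (x * y) v} ≤
        Nat.card {v : V // h x v ≠ h' x v} + Nat.card {v : V // h y v ≠ h' y v} := by
      classical
      rw [← Nat.card_sum]
      let f : {v : V // h (x * y) v ≠ h' (x * y) v} →
          {v : V // h x v ≠ h' x v} ⊕ {v : V // h y v ≠ h' y v} := fun v =>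
        if hv : h y v.1 ≠ h' y v.1 then Sum.inr ⟨v.1, hv⟩
        else Sum.inl ⟨p y v.1, fun hc => v.2 (by
          rw [hm, hm', hc]
          rw [not_not] at hv
          rw [hv])⟩
      apply Nat.card_le_card_of_injective f
      intro v v' hvv
      simp only [f] at hvv
      apply Subtype.ext
      split_ifs at hvv with a b b
      · simpa using hvv
      · have := Sum.inl.inj hvv
        simpa using this
    have h4 : (Nat.card {v : V // h (x * y) v ≠ h' (x * y) v} : ℝ) ≤
        Nat.card {v : V // h x v ≠ h' x v} + Nat.card {v : V // h y v ≠ h' y v} := by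
      exact_mod_cast h3
    push_cast
    linarith

theorem card_bad_coord (K : ℕ) [NeZero K] (m : ℤ) :
    Nat.card {x : ZMod K // ¬ (0 ≤ (x.val : ℤ) + m ∧ (x.val : ℤ) + m < K)} ≤ m.natAbs := by
  classical
  have hK : 0 < K := Nat.pos_of_ne_zero (NeZero.ne K)
  let f : {x : ZMod K // ¬ (0 ≤ (x.val : ℤ) + m ∧ (x.val : ℤ) + m < K)} → Fin m.natAbs := fun x =>
    ⟨if 0 ≤ m then K - 1 - x.1.val else x.1.val, by
      have h1 := x.2
      have h2 := ZMod.val_lt x.1
      split_ifs with h3
      · omega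
      · omega⟩
  have := Nat.card_le_card_of_injective f (by
    intro x y hxy
    have h1 := ZMod.val_lt x.1
    have h2 := ZMod.val_lt y.1
    simp only [f, Fin.mk.injEq] at hxy
    apply Subtype.ext
    apply ZMod.val_injective K
    split_ifs at hxy with h3
    · omega
    · omega)
  simpa using this

theorem card_slice_le {ι α T : Type} [Fintype ι] [DecidableEq ι] [Fintype α] [Fintype T] (i : ι)
    (S : α → Prop) :
    Nat.card {v : (ι → α) × T // S (v.1 i)} * Nat.card α ≤
      Nat.card {c : α // S c} * Nat.card ((ι → α) × T) := by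
  classical
  have h1 : Nat.card {v : (ι → α) × T // S (v.1 i)} ≤
      Nat.card ((Σ c : {c : α // S c}, {v : ι → α // v i = c.1}) × T) := by
    let f : {v : (ι → α) × T // S (v.1 i)} →
        ((Σ c : {c : α // S c}, {v : ι → α // v i = c.1}) × T) := fun v =>
      (⟨⟨v.1.1 i, v.2⟩, ⟨v.1.1, rfl⟩⟩, v.1.2)
    apply Nat.card_le_card_of_injective f
    intro v v' h
    simp only [f, Prod.mk.injEq] at h
    have h2 := congrArg (fun z : (Σ c : {c : α // S c}, {v : ι → α // v i = c.1}) => z.2.1) h.1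
    simp only at h2
    exact Subtype.ext (Prod.ext h2 h.2)
  calc _ ≤ Nat.card ((Σ c : {c : α // S c}, {v : ι → α // v i = c.1}) × T) * Nat.card α :=
        Nat.mul_le_mul_right _ h1
    _ = (∑ c : {c : α // S c}, Nat.card {v : ι → α // v i = c.1} * Nat.card α) * Nat.card T := by
        rw [Nat.card_prod, Nat.card_sigma, ← Finset.sum_mul]
        ring
    _ = Nat.card {c : α // S c} * Nat.card ((ι → α) × T) := by
        rw [Finset.sum_congr rfl (fun c _ => card_slice i c.1), Nat.card_prod]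
        simp [Nat.card_eq_fintype_card, mul_assoc]

theorem normal_of_comm {G : Type} [Group G] (H : Subgroup G) (hH : commutator G ≤ H) :
    H.Normal := by
  constructor
  intro n hn g
  have h1 : g * n * g⁻¹ = ⁅g, n⁆ * n := by
    rw [commutatorElement_def]
    group
  rw [h1]
  refine H.mul_mem (hH ?_) hn
  rw [commutator_def]
  exact Subgroup.commutator_mem_commutator (Subgroup.mem_top g) (Subgroup.mem_top n)

/-- a commutative quotient -/
@[reducible] def quotComm2 {G : Type} [Group G] (R : Subgroup G) [R.Normal]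
    (h : commutator G ≤ R) : CommGroup (G ⧸ R) :=
  { (inferInstance : Group (G ⧸ R)) with
    mul_comm := by
      intro a b
      induction a using QuotientGroup.induction_on with
      | H a =>
      induction b using QuotientGroup.induction_on with
      | H b =>
      rw [← QuotientGroup.mk_mul, ← QuotientGroup.mk_mul, QuotientGroup.eq]
      apply h
      have : ((a * b)⁻¹ * (b * a)) = ⁅b⁻¹, a⁻¹⁆ := by
        rw [commutatorElement_def]
        group
      rw [this, commutator_def]
      exact Subgroup.commutator_mem_commutator (Subgroup.mem_top _) (Subgroup.mem_top _) }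

/-- The data of the quotient `F/F₀`. -/
theorem quot_data (r : ℕ) (F₀ : Subgroup (FG r)) (hc : commutator (FG r) ≤ F₀) :
    ∃ (S T : Type) (_ : Fintype S) (_ : Fintype T) (_ : CommGroup T)
      (q : FG r →* (S → Multiplicative ℤ) × T), Function.Surjective q ∧
        ∀ w, w ∈ F₀ ↔ q w = 1 := by
  have hN := normal_of_comm F₀ hc
  let _ := quotComm2 F₀ hc
  have hfg : Group.FG (FG r ⧸ F₀) := QuotientGroup.fg F₀
  obtain ⟨ι, S, _, _, p, hp, e, ⟨E⟩⟩ :=
    CommGroup.equiv_free_prod_prod_multiplicative_zmod (FG r ⧸ F₀)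
  have : ∀ i, NeZero (p i ^ e i) := fun i => ⟨pow_ne_zero _ (hp i).ne_zero⟩
  have : ∀ i, Fintype (Multiplicative (ZMod (p i ^ e i))) := fun i =>
    Fintype.ofEquiv (ZMod (p i ^ e i)) Multiplicative.ofAdd
  classical
  refine ⟨S, (i : ι) → Multiplicative (ZMod (p i ^ e i)), inferInstance, inferInstance,
    inferInstance, E.toMonoidHom.comp (QuotientGroup.mk' F₀), ?_, ?_⟩
  · exact E.surjective.comp (QuotientGroup.mk'_surjective F₀)
  · intro w
    rw [MonoidHom.comp_apply]
    change _ ↔ E (QuotientGroup.mk' F₀ w) = 1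
    rw [EmbeddingLike.map_eq_one_iff, QuotientGroup.mk'_apply, QuotientGroup.eq_one_iff]

/-- The projection to the torsion part modulo `R`. -/
theorem proj_exists {r : ℕ} (R F₀ : Subgroup (FG r)) [R.Normal] (hc : commutator (FG r) ≤ R)
    (hR : R ≤ F₀) {S T : Type} [Fintype S] [CommGroup T]
    (q : FG r →* (S → Multiplicative ℤ) × T) (hq : Function.Surjective q)
    (hF : ∀ w, w ∈ F₀ ↔ q w = 1) :
    ∃ u : FG r →* FG r ⧸ R, (∀ w, w ∈ F₀ → u w = QuotientGroup.mk w) ∧
      ∀ w x, (QuotientGroup.mk x : FG r ⧸ R) = u w → q x = (1, (q w).2) := by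
  classical
  let _ := quotComm2 R hc
  have hf : ∀ j : S, ∃ f : FG r, q f = (Pi.mulSingle j (Multiplicative.ofAdd 1), 1) :=
    fun j => hq _
  choose f hf using hf
  let u : FG r →* FG r ⧸ R :=
    { toFun := fun w => (QuotientGroup.mk w : FG r ⧸ R) *
        ∏ j, (QuotientGroup.mk (f j) : FG r ⧸ R) ^ (-(Multiplicative.toAdd ((q w).1 j)))
      map_one' := by simp
      map_mul' := by
        intro w w'
        rw [QuotientGroup.mk_mul, mul_mul_mul_comm, ← Finset.prod_mul_distrib]
        congr 1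
        apply Finset.prod_congr rfl
        intro j _
        rw [← zpow_add, map_mul]
        congr 1
        simp only [Prod.fst_mul, Pi.mul_apply, toAdd_mul]
        ring }
  let qb : FG r ⧸ R →* (S → Multiplicative ℤ) × T := QuotientGroup.lift R q (fun x hx =>
    (hF x).1 (hR hx))
  have hqb : ∀ x, qb (QuotientGroup.mk x) = q x := fun x => QuotientGroup.lift_mk' R _ x
  have hu : ∀ w, qb (u w) = (1, (q w).2) := by
    intro w
    change qb ((QuotientGroup.mk w : FG r ⧸ R) *
        ∏ j, (QuotientGroup.mk (f j) : FG r ⧸ R) ^ (-(Multiplicative.toAdd ((q w).1 j)))) = _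
    rw [map_mul, map_prod, hqb]
    simp only [map_zpow, hqb, hf]
    apply Prod.ext
    · simp only [Prod.fst_mul, Prod.fst_prod, Prod.pow_fst]
      funext i
      simp only [Pi.mul_apply, Finset.prod_apply, Pi.pow_apply, Pi.one_apply]
      rw [Finset.prod_eq_single i]
      · rw [Pi.mulSingle_eq_same, ← ofAdd_zsmul, mul_eq_one_iff_eq_inv, ← ofAdd_neg]
        simp
      · intro j _ hj
        rw [Pi.mulSingle_eq_of_ne hj.symm, one_zpow]
      · intro h
        exact absurd (Finset.mem_univ i) h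
    · simp only [Prod.snd_mul, Prod.snd_prod, Prod.pow_snd]
      simp
  refine ⟨u, ?_, ?_⟩
  · intro w hw
    change (QuotientGroup.mk w : FG r ⧸ R) *
        ∏ j, (QuotientGroup.mk (f j) : FG r ⧸ R) ^ (-(Multiplicative.toAdd ((q w).1 j))) = _
    rw [(hF w).1 hw]
    simp
  · intro w x hx
    rw [← hqb, hx, hu]

theorem card_exists_le {ι V : Type} [Fintype ι] [Fintype V] (B : ι → V → Prop) :
    Nat.card {v : V // ∃ j, B j v} ≤ ∑ j, Nat.card {v : V // B j v} := by
  classical
  have h1 : Nat.card {v : V // ∃ j, B j v} ≤ Nat.card (Σ j, {v : V // B j v}) := by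
    let f : {v : V // ∃ j, B j v} → Σ j, {v : V // B j v} := fun v =>
      ⟨v.2.choose, v.1, v.2.choose_spec⟩
    apply Nat.card_le_card_of_injective f
    intro v v' h
    have h2 := congrArg (fun z : (Σ j, {v : V // B j v}) => z.2.1) h
    exact Subtype.ext h2
  rwa [Nat.card_sigma] at h1

theorem tile_K {r : ℕ} (R F₀ : Subgroup (FG r)) (hRn : R.Normal) (hc : commutator (FG r) ≤ R)
    (hR : R ≤ F₀) : ∃ C : ℕ, ∀ K : ℕ, 0 < K → ∃ (V : Type) (_ : Fintype V) (_ : Nonempty V)
      (t : Tile R F₀ V), ∀ i, Nat.card {v : V // t.h (FreeGroup.of i) v ≠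
        (t.g (t.p (FreeGroup.of i) v))⁻¹ * FreeGroup.of i * t.g v} * K ≤ C * Nat.card V := by
  classical
  obtain ⟨S, T, _, _, _, q, hq, hF⟩ := quot_data r F₀ (hc.trans hR)
  obtain ⟨u, hu1, hu2⟩ := proj_exists R F₀ hc hR q hq hF
  refine ⟨∑ i : Fin r, ∑ j : S, (Multiplicative.toAdd ((q (FreeGroup.of i)).1 j)).natAbs, ?_⟩
  intro K hK
  have : NeZero K := ⟨hK.ne'⟩
  let V := (S → ZMod K) × T
  have hαmul : ∀ w w' j, (Multiplicative.toAdd ((q (w * w')).1 j)) =
      Multiplicative.toAdd ((q w).1 j) + Multiplicative.toAdd ((q w').1 j) := by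
    intro w w' j
    rw [map_mul]
    rfl
  let p : FG r →* Equiv.Perm V :=
    { toFun := fun w =>
        { toFun := fun v => (fun j => v.1 j + ((Multiplicative.toAdd ((q w).1 j) : ℤ) : ZMod K),
            (q w).2 * v.2)
          invFun := fun v => (fun j => v.1 j - ((Multiplicative.toAdd ((q w).1 j) : ℤ) : ZMod K),
            (q w).2⁻¹ * v.2)
          left_inv := by
            intro v
            simp
          right_inv := by
            intro v
            simp }
      map_one' := by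
        ext v
        · simp
        · simp
      map_mul' := by
        intro w w'
        apply Equiv.ext
        intro v
        apply Prod.ext
        · funext j
          simp only [Equiv.Perm.mul_apply, Equiv.coe_fn_mk]
          rw [hαmul]
          push_cast
          ring
        · simp [mul_assoc] }
  have hg : ∀ v : V, ∃ x : FG r, q x =
      (fun j => Multiplicative.ofAdd (((v.1 j).val : ℕ) : ℤ), v.2) := fun v => hq _
  choose g hg using hg
  let lam : FG r → V → FG r := fun w v => (g (p w v))⁻¹ * w * g v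
  have hlam : ∀ w w' v, lam (w * w') v = lam w (p w' v) * lam w' v := by
    intro w w' v
    simp only [lam, map_mul, Equiv.Perm.mul_apply]
    group
  have hp2 : ∀ w v, (p w v).2 = (q w).2 * v.2 := fun w v => rfl
  have hp1 : ∀ w v j, (p w v).1 j = v.1 j + ((Multiplicative.toAdd ((q w).1 j) : ℤ) : ZMod K) :=
    fun w v j => rfl
  have hlam2 : ∀ w v, (q (lam w v)).2 = 1 := by
    intro w v
    simp only [lam, map_mul, map_inv, hg, Prod.snd_mul, Prod.snd_inv]
    rw [hp2]
    simp
  have hρ : ∀ (i : Fin r) (v : V), ∃ x : FG r,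
      (QuotientGroup.mk x : FG r ⧸ R) = u (lam (FreeGroup.of i) v) ∧
        (lam (FreeGroup.of i) v ∈ F₀ → x = lam (FreeGroup.of i) v) := by
    intro i v
    by_cases h : lam (FreeGroup.of i) v ∈ F₀
    · exact ⟨_, (hu1 _ h).symm, fun _ => rfl⟩
    · obtain ⟨x, hx⟩ := QuotientGroup.mk_surjective (u (lam (FreeGroup.of i) v))
      exact ⟨x, hx, fun h' => absurd h' h⟩
  choose ρ hρ1 hρ2 using hρ
  obtain ⟨h, hm, hof⟩ := cocycle_exists p ρ
  have key : ∀ w v, (QuotientGroup.mk (h w v) : FG r ⧸ R) = u (lam w v) := by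
    apply cocycle_unique p (fun w v => (QuotientGroup.mk (h w v) : FG r ⧸ R))
      (fun w v => u (lam w v))
    · intro w w' v
      rw [hm, QuotientGroup.mk_mul]
    · intro w w' v
      rw [hlam, map_mul]
    · intro i v
      rw [hof, hρ1]
  have hpF : ∀ w ∈ F₀, p w = 1 := by
    intro w hw
    have h1 := (hF w).1 hw
    apply Equiv.ext
    intro v
    apply Prod.ext
    · funext j
      rw [hp1, h1]
      simp
    · rw [hp2, h1]
      simp
  let t : Tile R F₀ V :=
    { p := p
      g := g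
      h := h
      p_triv := hpF
      h_mul := hm
      h_mem := by
        intro w v
        rw [hF, hu2 _ _ (key w v), hlam2]
        rfl
      h_R := by
        intro w hw v
        have h1 : p w v = v := by
          rw [hpF w (hR hw)]
          rfl
        have h2 : lam w v ∈ R := by
          simp only [lam]
          rw [h1]
          have := hRn.conj_mem w hw (g v)⁻¹
          rwa [inv_inv] at this
        have h3 := key w v
        rw [hu1 _ (hR h2), (QuotientGroup.eq_one_iff _).2 h2, QuotientGroup.eq_one_iff] at h3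
        exact h3 }
  refine ⟨V, inferInstance, ⟨(0, 1)⟩, t, fun i => ?_⟩
  have hbad : ∀ v : V, h (FreeGroup.of i) v ≠ lam (FreeGroup.of i) v → ∃ j : S,
      ¬ (0 ≤ (((v.1 j).val : ℕ) : ℤ) + Multiplicative.toAdd ((q (FreeGroup.of i)).1 j) ∧
        (((v.1 j).val : ℕ) : ℤ) + Multiplicative.toAdd ((q (FreeGroup.of i)).1 j) < K) := by
    intro v hv
    by_contra hcon
    push Not at hcon
    apply hv
    rw [hof]
    apply hρ2
    rw [hF]
    apply Prod.ext
    · funext j
      simp only [lam, map_mul, map_inv, hg, Prod.fst_mul, Prod.fst_inv, Pi.mul_apply, Pi.inv_apply,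
        Prod.fst_one, Pi.one_apply]
      have h1 : ((((p (FreeGroup.of i) v).1 j).val : ℕ) : ℤ) =
          (((v.1 j).val : ℕ) : ℤ) + Multiplicative.toAdd ((q (FreeGroup.of i)).1 j) := by
        rw [hp1]
        have h2 : v.1 j + ((Multiplicative.toAdd ((q (FreeGroup.of i)).1 j) : ℤ) : ZMod K) =
            (((((v.1 j).val : ℕ) : ℤ) + Multiplicative.toAdd ((q (FreeGroup.of i)).1 j) : ℤ) :
              ZMod K) := by
          push_cast
          rw [ZMod.natCast_zmod_val]
        rw [h2, ZMod.val_intCast, Int.emod_eq_of_lt (hcon j).1 (hcon j).2]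
      rw [h1, ofAdd_add, ofAdd_toAdd, mul_assoc, mul_comm ((q (FreeGroup.of i)).1 j),
        inv_mul_cancel]
    · rw [hlam2]
      rfl
  have h1 : Nat.card {v : V // t.h (FreeGroup.of i) v ≠
        (t.g (t.p (FreeGroup.of i) v))⁻¹ * FreeGroup.of i * t.g v} ≤
      ∑ j : S, Nat.card {v : V // ¬ (0 ≤ (((v.1 j).val : ℕ) : ℤ) +
        Multiplicative.toAdd ((q (FreeGroup.of i)).1 j) ∧
        (((v.1 j).val : ℕ) : ℤ) + Multiplicative.toAdd ((q (FreeGroup.of i)).1 j) < K)} := by
    refine le_trans ?_ (card_exists_le _)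
    apply Nat.card_le_card_of_injective (fun v => ⟨v.1, hbad v.1 v.2⟩)
    intro v v' hvv
    simpa [Subtype.ext_iff] using hvv
  calc _ ≤ (∑ j : S, Nat.card {v : V // ¬ (0 ≤ (((v.1 j).val : ℕ) : ℤ) +
        Multiplicative.toAdd ((q (FreeGroup.of i)).1 j) ∧
        (((v.1 j).val : ℕ) : ℤ) + Multiplicative.toAdd ((q (FreeGroup.of i)).1 j) < K)}) * K :=
        Nat.mul_le_mul_right _ h1
    _ = ∑ j : S, Nat.card {v : V // ¬ (0 ≤ (((v.1 j).val : ℕ) : ℤ) +
        Multiplicative.toAdd ((q (FreeGroup.of i)).1 j) ∧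
        (((v.1 j).val : ℕ) : ℤ) + Multiplicative.toAdd ((q (FreeGroup.of i)).1 j) < K)} * K := by
        rw [Finset.sum_mul]
    _ ≤ ∑ j : S, (Multiplicative.toAdd ((q (FreeGroup.of i)).1 j)).natAbs * Nat.card V := by
        apply Finset.sum_le_sum
        intro j _
        have h2 := card_slice_le (T := T) j (fun x : ZMod K => ¬ (0 ≤ ((x.val : ℕ) : ℤ) +
          Multiplicative.toAdd ((q (FreeGroup.of i)).1 j) ∧
          ((x.val : ℕ) : ℤ) + Multiplicative.toAdd ((q (FreeGroup.of i)).1 j) < K))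
        rw [Nat.card_eq_fintype_card (α := ZMod K), ZMod.card] at h2
        exact h2.trans (Nat.mul_le_mul_right _ (card_bad_coord K _))
    _ = (∑ j : S, (Multiplicative.toAdd ((q (FreeGroup.of i)).1 j)).natAbs) * Nat.card V := by
        rw [Finset.sum_mul]
    _ ≤ _ := by
        apply Nat.mul_le_mul_right
        exact Finset.single_le_sum (f := fun i : Fin r =>
          ∑ j : S, (Multiplicative.toAdd ((q (FreeGroup.of i)).1 j)).natAbs)
          (fun _ _ => Nat.zero_le _) (Finset.mem_univ i)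

theorem TILE : T_TILE := by
  classical
  intro r R F₀ hRn hc hR B ε hε
  obtain ⟨C, hC⟩ := tile_K R F₀ hRn hc hR
  have hcount := fun w : FG r => cocycle_count w
  choose m hm using hcount
  obtain ⟨K, hK⟩ := exists_nat_gt ((∑ w ∈ B, (m w : ℝ)) * C / ε)
  obtain ⟨V, i1, i2, t, ht⟩ := hC (K + 1) (Nat.succ_pos K)
  refine ⟨V, i1, i2, t, ?_⟩
  have hlam : ∀ w w' v, (t.g (t.p (w * w') v))⁻¹ * (w * w') * t.g v =
      ((t.g (t.p w (t.p w' v)))⁻¹ * w * t.g (t.p w' v)) * ((t.g (t.p w' v))⁻¹ * w' * t.g v) := by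
    intro w w' v
    rw [map_mul, Equiv.Perm.mul_apply]
    group
  have hK1 : (0 : ℝ) < (K : ℝ) + 1 := by positivity
  have hβ : ∀ i, (Nat.card {v : V // t.h (FreeGroup.of i) v ≠
        (t.g (t.p (FreeGroup.of i) v))⁻¹ * FreeGroup.of i * t.g v} : ℝ) ≤
        C * Nat.card V / (K + 1) := by
    intro i
    rw [le_div_iff₀ hK1]
    exact_mod_cast ht i
  have h1 : ∀ w ∈ B, (Nat.card {v : V // t.h w v ≠ (t.g (t.p w v))⁻¹ * w * t.g v} : ℝ) ≤
      m w * (C * Nat.card V / (K + 1)) := by
    intro w _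
    exact hm w V (FG r) t.p t.h (fun w v => (t.g (t.p w v))⁻¹ * w * t.g v) t.h_mul hlam _ hβ
  have h2 : Nat.card {v : V // ∃ w ∈ B, t.h w v ≠ (t.g (t.p w v))⁻¹ * w * t.g v} ≤
      ∑ w ∈ B, Nat.card {v : V // t.h w v ≠ (t.g (t.p w v))⁻¹ * w * t.g v} := by
    have h3 := card_exists_le (fun (w : B) (v : V) =>
      t.h w.1 v ≠ (t.g (t.p w.1 v))⁻¹ * w.1 * t.g v)
    rw [Finset.sum_coe_sort B (fun w => Nat.card {v : V // t.h w v ≠
      (t.g (t.p w v))⁻¹ * w * t.g v})] at h3
    refine le_trans (le_of_eq ?_) h3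
    apply Nat.card_congr
    refine (Equiv.refl V).subtypeEquiv ?_
    intro v
    simp
  have h4 : (Nat.card {v : V // ∃ w ∈ B, t.h w v ≠ (t.g (t.p w v))⁻¹ * w * t.g v} : ℝ) ≤
      ∑ w ∈ B, (Nat.card {v : V // t.h w v ≠ (t.g (t.p w v))⁻¹ * w * t.g v} : ℝ) := by
    exact_mod_cast h2
  have h5 := h4.trans (Finset.sum_le_sum h1)
  rw [← Finset.sum_mul] at h5
  refine h5.trans ?_
  have h6 : (∑ w ∈ B, (m w : ℝ)) * C ≤ ε * (K + 1) := by
    rw [div_lt_iff₀ hε] at hK
    nlinarith
  have hV : (0 : ℝ) ≤ Nat.card V := Nat.cast_nonneg _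
  have h7 : (∑ w ∈ B, (m w : ℝ)) * (C * Nat.card V / (K + 1)) =
      (∑ w ∈ B, (m w : ℝ)) * C / (K + 1) * Nat.card V := by
    ring
  rw [h7]
  apply mul_le_mul_of_nonneg_right _ hV
  rw [div_le_iff₀ hK1]
  exact h6

end Pool.Agent.H59.PS
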